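import Pool.Agent.Helper926.RK.Final
import Mathlib.Topology.Baire.Lemmas

/-!
# Almost all reals in the sense of category are not `≤_rK`-below any Martin-Löf random real
-/

set_option autoImplicit false

namespace Pool.Agent.Y839.RK

open Pool.Agent.Helper926.RK Filter Topology

/-- the dense open set for the level `k` of the test and the constant `c` -/
def Good (V : ℕ → ℕ → ℕ → Prop) (R : ℕ → ℕ → ℕ → ℕ → Prop) (k c : ℕ) : Set (ℕ → Bool) :=
  {A | ∃ L, ∀ z < 2 ^ L, ¬ V k L z →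
        ∃ i ≤ L, ¬ R c i (z / 2 ^ (L - i)) (code A L / 2 ^ (L - i))}

theorem cyl_open (A : ℕ → Bool) (L : ℕ) : IsOpen {B : ℕ → Bool | ∀ i < L, B i = A i} := by
  have h : {B : ℕ → Bool | ∀ i < L, B i = A i} = ⋂ i ∈ Finset.range L, {B | B i = A i} := by
    ext B
    simp
  rw [h]
  refine isOpen_biInter_finset fun i _ => ?_
  have h2 : {B : ℕ → Bool | B i = A i} = (fun B : ℕ → Bool => B i) ⁻¹' {A i} := rfl
  rw [h2]
  exact (isOpen_discrete ({A i} : Set Bool)).preimage (continuous_apply i)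

theorem code_congr (A B : ℕ → Bool) (n : ℕ) (h : ∀ i < n, A i = B i) : code A n = code B n := by
  unfold code pre
  congr 1
  exact List.map_congr_left fun i hi => h i (List.mem_range.1 hi)

theorem good_open (V : ℕ → ℕ → ℕ → Prop) (R : ℕ → ℕ → ℕ → ℕ → Prop) (k c : ℕ) :
    IsOpen (Good V R k c) := by
  rw [isOpen_iff_forall_mem_open]
  rintro A ⟨L, hL⟩
  refine ⟨{B | ∀ i < L, B i = A i}, ?_, cyl_open A L, fun i _ => rfl⟩
  intro B hB
  refine ⟨L, ?_⟩
  rw [code_congr B A L hB]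
  exact hL

theorem exists_cyl (A : ℕ → Bool) (O : Set (ℕ → Bool)) (hO : IsOpen O) (hA : A ∈ O) :
    ∃ h : ℕ, ∀ B : ℕ → Bool, (∀ i < h, B i = A i) → B ∈ O := by
  rw [isOpen_pi_iff] at hO
  obtain ⟨I, u, hu, hsub⟩ := hO A hA
  refine ⟨I.sup id + 1, fun B hB => hsub ?_⟩
  intro i hi
  have h1 : i ≤ I.sup id := Finset.le_sup (f := id) hi
  rw [hB i (Nat.lt_succ_of_le h1)]
  exact (hu i hi).2

theorem good_dense {V : ℕ → ℕ → ℕ → Prop} {R : ℕ → ℕ → ℕ → ℕ → Prop}
    (h3 : ∀ k c h τ, τ < 2 ^ h → ∃ L t, h ≤ L ∧ t < 2 ^ L ∧ t / 2 ^ (L - h) = τ ∧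
        ∀ z < 2 ^ L, ¬ V k L z → ∃ i ≤ L, ¬ R c i (z / 2 ^ (L - i)) (t / 2 ^ (L - i)))
    (k c : ℕ) : Dense (Good V R k c) := by
  rw [dense_iff_inter_open]
  rintro O hO ⟨A, hA⟩
  obtain ⟨h, hh⟩ := exists_cyl A O hO hA
  obtain ⟨L, t, hL, ht, htau, hz⟩ := h3 k c h (code A h) (code_lt _ _)
  obtain ⟨B, hB1, hB2⟩ := exists_code A h L t hL ht htau
  refine ⟨B, hh B hB2, L, fun z hz1 hz2 => ?_⟩
  rw [hB1]
  exact hz z hz1 hz2

theorem gen_aux (heff : Effective) (U : List Bool → List Bool →. List Bool)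
    (hU : Partrec₂ U) :
    ∀ᶠ A in residual (ℕ → Bool), ∀ Z : ℕ → Bool, MLRandom Z → ¬ RKReducible U A Z := by
  obtain ⟨V, hV1, hV2, hV3⟩ := heff (RRr U) (RRr_re hU) (fun c i z F h => RRr_card c i z F h)
  have hres : ∀ᶠ A in residual (ℕ → Bool), ∀ k c, A ∈ Good V (RRr U) k c := by
    rw [eventually_countable_forall]
    intro k
    rw [eventually_countable_forall]
    intro c
    exact residual_of_dense_open (good_open _ _ k c) (good_dense hV3 k c)
  refine hres.mono fun A hA Z hZ hred => ?_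
  have hcode : ∀ (Y : ℕ → Bool) (n : ℕ), val (pre Y n) = code Y n := fun _ _ => rfl
  have htest : IsMLTest (fun k σ => V k σ.length (val σ)) := by
    refine ⟨?_, ?_⟩
    · refine Pool.Agent.Helper926.RE.comp hV1 (f := fun p : ℕ × List Bool => (p.1, p.2.length, val p.2)) ?_
      exact Computable.fst.pair ((Computable.list_length.comp Computable.snd).pair (f_val.comp Computable.snd))
    · intro k
      obtain ⟨L, S, h1, h2⟩ := hV2 k
      have e : {Z : ℕ → Bool | ∃ n, V k (pre Z n).length (val (pre Z n))} = {Z | ∃ j, code Z (L j) ∈ S j} := by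
        ext Y
        simp only [Set.mem_ofPred_eq, length_pre, hcode]
        constructor
        · rintro ⟨n, hn⟩
          obtain ⟨j, rfl, hj⟩ := (h2 _ _).1 hn
          exact ⟨j, hj⟩
        · rintro ⟨j, hj⟩
          exact ⟨L j, (h2 _ _).2 ⟨j, rfl, hj⟩⟩
      rw [e]
      exact coin_small k L S h1
  obtain ⟨k, hk⟩ := hZ _ htest
  simp only [length_pre, hcode] at hk
  obtain ⟨c, hc⟩ := hred
  obtain ⟨L, hL⟩ := hA k c
  obtain ⟨i, hi, hR⟩ := hL (code Z L) (code_lt Z L) (hk L)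
  rw [code_div Z i L hi, code_div A i L hi] at hR
  refine hR ⟨code_lt A i, ?_⟩
  obtain ⟨p, hp1, hp2⟩ := f_condK (hc i)
  refine ⟨p, hp1, ?_⟩
  rw [toStr_code, toStr_code]
  exact hp2

theorem gen : ∀ᶠ A in residual (ℕ → Bool), ∀ Z : ℕ → Bool, MLRandom Z →
    ∀ U : List Bool → List Bool →. List Bool, Partrec₂ U → ¬ RKReducible U A Z := by
  refine (gen_aux effective_holds pU pU_partrec).mono fun A hA Z hZ U hU hred => hA Z hZ ?_
  obtain ⟨c, hc⟩ := hred
  obtain ⟨c', hc'⟩ := pU_sim hU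
  refine ⟨c + c', fun n => ?_⟩
  obtain ⟨p, hp1, hp2⟩ := f_condK (hc n)
  obtain ⟨q, hq1, hq2⟩ := hc' p _ _ hp2
  refine (f_condK_le hq2).trans ?_
  have : q.length ≤ c + c' := by omega
  exact_mod_cast this

/-- the machine that copies the condition -/
def cpM (p y : List Bool) : Part (List Bool) :=
  (Part.assert (p = []) fun _ => Part.some ()).bind fun _ => Part.some y

theorem cpM_mem (y : List Bool) : y ∈ cpM [] y := by
  unfold cpM
  rw [Part.mem_bind_iff]
  exact ⟨(), (Part.mem_assert_iff).2 ⟨rfl, Part.mem_some _⟩, Part.mem_some _⟩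

theorem cpM_dom {p y : List Bool} (hp : (cpM p y).Dom) : p = [] := by
  obtain ⟨x, hx⟩ := Part.dom_iff_mem.1 hp
  unfold cpM at hx
  rw [Part.mem_bind_iff] at hx
  obtain ⟨u, hu, -⟩ := hx
  exact ((Part.mem_assert_iff).1 hu).1

theorem cpM_machine : IsPrefixFreeMachine cpM := by
  constructor
  · unfold cpM
    refine Partrec.bind (Pool.Agent.Helper926.RE.eq (f := fun x : List Bool × List Bool => x.1)
      (g := fun _ => ([] : List Bool)) Computable.fst (Computable.const [])) ?_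
    exact (Computable.snd.comp Computable.fst).partrec
  · intro p y q hp hq _
    rw [cpM_dom hp, cpM_dom hq]

/-- a universal machine with a condition copies the condition -/
theorem copy {U : List Bool → List Bool →. List Bool} (hU : IsUniversal U) (A : ℕ → Bool) :
    RKReducible U A A := by
  obtain ⟨c, hc⟩ := hU.univ cpM cpM_machine
  refine ⟨c, fun n => ?_⟩
  obtain ⟨q, hq1, hq2⟩ := hc [] (pre A n) (pre A n) (cpM_mem _)
  refine (f_condK_le hq2).trans ?_
  have : q.length ≤ c := by simpa using hq1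
  exact_mod_cast this

end Pool.Agent.Y839.RK
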